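import Mathlib
import Pool.Agent.Helper21.PD.Defs

/-!
# Local dimension theorem for differential systems (project DL, `MP_2c9d0b_al`)

Common definitions. `MvPolynomial (ι × ℕ) R` is the ring of differential polynomials; the
variable `(j, k)` stands for the `k`-th derivative of `x j`.
-/

open MvPolynomial

namespace Pool.Agent.Helper62.DL

open Pool.Agent.Helper21.PD

/-- The value group with zero. -/
abbrev Γ₀ : Type := WithZero (Multiplicative ℤ)

/-- The weight of `(x j)^(k)` is `1 + α k`. -/
abbrev wa {ι : Type*} (α : ℕ) : ι × ℕ → ℕ := fun v => 1 + α * v.2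

/-- The weight of `(x j)^(k)` is `w j + α k`. -/
abbrev ww {ι : Type*} (w : ι → ℕ) (α : ℕ) : ι × ℕ → ℕ := fun v => w v.1 + α * v.2

/-- All monomials of `f` have `W`-weight at least `e`. -/
def Low {υ R : Type*} [CommSemiring R] (W : υ → ℕ) (e : ℕ) (f : MvPolynomial υ R) : Prop :=
  ∀ γ ∈ f.support, e ≤ Finsupp.weight W γ

/-- A discrete valuation `w` of a field `E` over `C[τ]` (along `f : C[τ] → E`), over the place
`τ = 0`, with `τ ≠ 0` and with residue field `C`. -/
structure IsPlace {C : Type} [Field C] {E : Type} [Field E] (f : Polynomial C →+* E)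
    (w : Valuation E Γ₀) : Prop where
  ne : f Polynomial.X ≠ 0
  lt : w (f Polynomial.X) < 1
  const : ∀ a : C, a ≠ 0 → w (f (Polynomial.C a)) = 1
  res : ∀ y : E, w y ≤ 1 → ∃ a : C, w (y - f (Polynomial.C a)) < 1

/-- The ring homomorphism `C[τ] → RatFunc C`. -/
noncomputable abbrev toRat (C : Type) [Field C] : Polynomial C →+* RatFunc C :=
  algebraMap (Polynomial C) (RatFunc C)

/-- The inclusion of the differential polynomials in the parameters `ι'` into the differential
polynomials in all unknowns `ι ⊕ ι'`. -/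
noncomputable abbrev par {ι ι' R : Type*} [CommSemiring R] (f : MvPolynomial (ι' × ℕ) R) :
    MvPolynomial ((ι ⊕ ι') × ℕ) R :=
  rename (fun v : ι' × ℕ => ((Sum.inr v.1 : ι ⊕ ι'), v.2)) f

end Pool.Agent.Helper62.DL
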